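import Pool.Agent.Helper11.NH.Sheet

/-! # Row LEN of the project NH (MP_665203_nt): the exits of the arms -/

set_option autoImplicit false

open MeasureTheory Metric Set Filter Topology Real
open scoped ENNReal NNReal

namespace H11ST
namespace NH
namespace Len76

theorem ev0 (θ : ℝ) : (ev θ) 0 = cos θ := by simp [ev]

theorem ev1 (θ : ℝ) : (ev θ) 1 = sin θ := by simp [ev]

/-- component along the direction `β` -/
noncomputable def al (w : E 2) (β : ℝ) : ℝ := w 0 * cos β + w 1 * sin β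

/-- component orthogonal to the direction `β` -/
noncomputable def oh (w : E 2) (β : ℝ) : ℝ := w 1 * cos β - w 0 * sin β

theorem al_oh_sq (w : E 2) (β : ℝ) : al w β ^ 2 + oh w β ^ 2 = ‖w‖ ^ 2 := by
  rw [EuclideanSpace.norm_sq_eq, Fin.sum_univ_two]
  simp only [Real.norm_eq_abs, sq_abs]
  unfold al oh
  have := sin_sq_add_cos_sq β
  linear_combination (w 0 ^ 2 + w 1 ^ 2) * this

theorem al_add (w : E 2) (c β : ℝ) : al (w + c • ev β) β = al w β + c := by
  unfold al
  simp only [PiLp.add_apply, PiLp.smul_apply, ev0, ev1, smul_eq_mul]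
  have := sin_sq_add_cos_sq β
  linear_combination c * this

theorem oh_add (w : E 2) (c β : ℝ) : oh (w + c • ev β) β = oh w β := by
  unfold oh
  simp only [PiLp.add_apply, PiLp.smul_apply, ev0, ev1, smul_eq_mul]
  ring

theorem oh_small {w : E 2} (hw : ‖w‖ < 1 / 2) (β : ℝ) : |oh w β| < 1 / 2 := by
  have h1 := al_oh_sq w β
  have h2 : ‖w‖ ^ 2 < (1 / 2) ^ 2 := by
    have := norm_nonneg w
    nlinarith
  have h3 : oh w β ^ 2 < (1 / 2) ^ 2 := by nlinarith [sq_nonneg (al w β)]
  exact abs_lt_of_sq_lt_sq h3 (by norm_num)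

/-- the exit of one arm -/
theorem one {s v : E 2} {c β : ℝ} (hs : ‖s‖ < 1 / 2) (hc : 0 < c) (hv : v = s + c • ev β)
    (h1 : 1 / 2 ≤ ‖v‖) (h2 : ‖v‖ ≤ 1) :
    |arcsin (oh s β)| ≤ π / 6 ∧ 0 ≤ cos (arcsin (oh s β)) - (al s β + c) ∧
    v + (cos (arcsin (oh s β)) - (al s β + c)) • ev β = ev (β + arcsin (oh s β)) ∧
    cos (arcsin (oh s β)) - (al s β + c) ≤ cos (arcsin (oh s β)) -
      √(1 / 4 - sin (arcsin (oh s β)) ^ 2) := by
  have hh := oh_small hs β
  have hh2 := abs_lt.1 hh
  have hsin : sin (arcsin (oh s β)) = oh s β := sin_arcsin (by linarith) (by linarith)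
  have hcos : cos (arcsin (oh s β)) = √(1 - oh s β ^ 2) := cos_arcsin _
  have e1 := al_oh_sq s β
  have e2 := al_oh_sq v β
  have e3 : al v β = al s β + c := by rw [hv, al_add]
  have e4 : oh v β = oh s β := by rw [hv, oh_add]
  rw [e3, e4] at e2
  have hvn := norm_nonneg v
  have hsn := norm_nonneg s
  refine ⟨?_, ?_, ?_, ?_⟩
  · rw [abs_le]
    constructor
    · have h6 : -(π / 6) = arcsin (-(1 / 2)) := by
        rw [arcsin_neg]
        congr 1
        rw [← sin_pi_div_six, arcsin_sin] <;> linarith [pi_pos]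
      rw [h6]
      exact monotone_arcsin (by linarith)
    · have h6 : π / 6 = arcsin (1 / 2) := by
        rw [← sin_pi_div_six, arcsin_sin] <;> linarith [pi_pos]
      rw [h6]
      exact monotone_arcsin (by linarith)
  · rw [hcos, sub_nonneg]
    apply le_sqrt_of_sq_le
    nlinarith
  · have hc2 := sin_sq_add_cos_sq β
    ext i
    fin_cases i
    · simp only [Fin.zero_eta, PiLp.add_apply, PiLp.smul_apply, ev0, smul_eq_mul]
      rw [cos_add, hsin, hv]
      simp only [PiLp.add_apply, PiLp.smul_apply, ev0, smul_eq_mul]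
      unfold al oh
      linear_combination (-(s 0)) * hc2
    · simp only [Fin.mk_one, PiLp.add_apply, PiLp.smul_apply, ev1, smul_eq_mul]
      rw [sin_add, hsin, hv]
      simp only [PiLp.add_apply, PiLp.smul_apply, ev1, smul_eq_mul]
      unfold al oh
      linear_combination (-(s 1)) * hc2
  · rw [hsin]
    have hq : (0 : ℝ) ≤ 1 / 4 - oh s β ^ 2 := by nlinarith [abs_nonneg (oh s β), sq_abs (oh s β)]
    have h3 := sq_sqrt hq
    have h4 := sqrt_nonneg (1 / 4 - oh s β ^ 2)
    set S := √(1 / 4 - oh s β ^ 2) with hS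
    have h5 : al s β ^ 2 < S ^ 2 := by
      rw [h3]; nlinarith
    have h6 : -S < al s β := by
      have := abs_lt_of_sq_lt_sq h5 h4
      exact (abs_lt.1 this).1
    have h7 : S ^ 2 ≤ (al s β + c) ^ 2 := by
      rw [h3]; nlinarith
    have h8 : S ≤ al s β + c := by
      by_contra hcon
      rw [not_le] at hcon
      have : (al s β + c) ^ 2 < S ^ 2 := by
        apply sq_lt_sq'
        · linarith
        · exact hcon
      linarith
    linarith

theorem c13 : cos (π / 3) = 1 / 2 := cos_pi_div_three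
theorem s13 : sin (π / 3) = √3 / 2 := sin_pi_div_three
theorem c23 : cos (2 * π / 3) = -(1 / 2) := by
  rw [show 2 * π / 3 = π - π / 3 by ring, cos_pi_sub, c13]
theorem s23 : sin (2 * π / 3) = √3 / 2 := by
  rw [show 2 * π / 3 = π - π / 3 by ring, sin_pi_sub, s13]
theorem c53 : cos (5 * π / 3) = 1 / 2 := by
  rw [show 5 * π / 3 = 2 * π - π / 3 by ring, cos_two_pi_sub, c13]
theorem s53 : sin (5 * π / 3) = -(√3 / 2) := by
  rw [show 5 * π / 3 = 2 * π - π / 3 by ring, sin_two_pi_sub, s13]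

/-- row LEN -/
theorem nh_len : NH_LEN := by
  intro φ s a v c G
  have key : ∀ i, _ := fun i => one (G.sn (ft i)) (G.cpos i) (G.vd i) (G.vlow i) (G.vup i)
  refine ⟨fun i => arcsin (oh (s (ft i)) (φ + dl i)), fun i =>
    cos (arcsin (oh (s (ft i)) (φ + dl i))) - (al (s (ft i)) (φ + dl i) + c i),
    ⟨fun i => (key i).1, fun i => (key i).2.1, fun i => (key i).2.2.1,
      fun i => (key i).2.2.2⟩, ?_, ?_⟩
  · have hsin : ∀ i, sin (arcsin (oh (s (ft i)) (φ + dl i))) = oh (s (ft i)) (φ + dl i) := by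
      intro i
      have := abs_lt.1 (oh_small (G.sn (ft i)) (φ + dl i))
      exact sin_arcsin (by linarith) (by linarith)
    simp only [hsin]
    have h3 : (√3 : ℝ) ^ 2 = 3 := sq_sqrt (by norm_num)
    have hc := sin_sq_add_cos_sq φ
    simp only [Fin.sum_univ_five, ft, dl, Matrix.cons_val_zero, Matrix.cons_val_one,
      Matrix.cons_val, oh, G.s1, G.s2, PiLp.add_apply, PiLp.smul_apply, ev0, ev1, smul_eq_mul,
      cos_add, sin_add, cos_sub, sin_sub, c13, s13, c23, s23, c53, s53, cos_pi, sin_pi,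
      cos_zero, sin_zero]
    ring_nf
  · have h3 : (√3 : ℝ) ^ 2 = 3 := sq_sqrt (by norm_num)
    have hc := sin_sq_add_cos_sq φ
    rw [Finset.sum_sub_distrib, Finset.sum_add_distrib]
    have : ∑ i, al (s (ft i)) (φ + dl i) = a 0 + a 1 := by
      simp only [Fin.sum_univ_five, ft, dl, Matrix.cons_val_zero, Matrix.cons_val_one,
        Matrix.cons_val, al, G.s1, G.s2, PiLp.add_apply, PiLp.smul_apply, ev0, ev1, smul_eq_mul,
        cos_add, sin_add, cos_sub, sin_sub, c13, s13, c23, s23, c53, s53, cos_pi, sin_pi,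
        cos_zero, sin_zero]
      linear_combination ((a 0 + a 1) / 4 * (cos φ ^ 2 + sin φ ^ 2)) * h3 + (a 0 + a 1) * hc
    rw [this]
    ring

end Len76
end NH
end H11ST
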