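import Pool.Agent.Helper76.NH.LEN

/-! # Addition to the row LEN: the two arms of one foot -/

set_option autoImplicit false

open MeasureTheory Metric Set Filter Topology Real
open scoped ENNReal NNReal

namespace H11ST
namespace NH
namespace Len76

theorem oh_ev (β θ : ℝ) : oh (ev (β + θ)) β = sin θ := by
  unfold oh
  rw [ev0, ev1, sin_add, cos_add]
  linear_combination (sin θ) * sin_sq_add_cos_sq β

/-- the offset of an arm is the torque of its foot -/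
theorem sin_th {φ : ℝ} {s : Fin 3 → E 2} {a : Fin 2 → ℝ} {v : Fin 5 → E 2} {c : Fin 5 → ℝ}
    (G : Geo φ s a v c) {th rr : Fin 5 → ℝ} (X : Ex φ v th rr) (i : Fin 5) :
    sin (th i) = oh (s (ft i)) (φ + dl i) := by
  have h := X.rv i
  have h1 : oh (v i + rr i • ev (φ + dl i)) (φ + dl i) = oh (ev (φ + dl i + th i)) (φ + dl i) :=
    congrArg (fun w => oh w (φ + dl i)) h
  rw [oh_add, oh_ev, G.vd i] at h1
  have h2 : oh (s (ft i) + c i • dv φ i) (φ + dl i) = oh (s (ft i)) (φ + dl i) :=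
    oh_add _ _ _
  rw [h2] at h1
  exact h1.symm

theorem oh_diff {w : E 2} (hw : ‖w‖ < 1 / 2) {β β' : ℝ} (hb : cos (β - β') = -(1 / 2)) :
    |oh w β - oh w β'| ≤ √3 / 2 := by
  have h3 : (√3 : ℝ) ^ 2 = 3 := sq_sqrt (by norm_num)
  have h30 : (0 : ℝ) ≤ √3 := sqrt_nonneg 3
  have hn : w 0 ^ 2 + w 1 ^ 2 = ‖w‖ ^ 2 := by
    rw [EuclideanSpace.norm_sq_eq, Fin.sum_univ_two]
    simp only [Real.norm_eq_abs, sq_abs]
  have hn2 : ‖w‖ ^ 2 ≤ 1 / 4 := by
    have := norm_nonneg w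
    nlinarith
  have hc : (cos β - cos β') ^ 2 + (sin β - sin β') ^ 2 = 3 := by
    rw [cos_sub] at hb
    linear_combination sin_sq_add_cos_sq β + sin_sq_add_cos_sq β' - 2 * hb
  refine abs_le_of_sq_le_sq ?_ (by positivity)
  unfold oh
  have e : (w 1 * cos β - w 0 * sin β - (w 1 * cos β' - w 0 * sin β')) ^ 2 =
      (w 0 ^ 2 + w 1 ^ 2) * ((cos β - cos β') ^ 2 + (sin β - sin β') ^ 2) -
      (w 1 * (sin β - sin β') + w 0 * (cos β - cos β')) ^ 2 := by ring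
  rw [e, hc, hn, div_pow, h3]
  nlinarith [sq_nonneg (w 1 * (sin β - sin β') + w 0 * (cos β - cos β'))]

theorem foot {φ : ℝ} {s : Fin 3 → E 2} {a : Fin 2 → ℝ} {v : Fin 5 → E 2} {c : Fin 5 → ℝ}
    (G : Geo φ s a v c) {th rr : Fin 5 → ℝ} (X : Ex φ v th rr) :
    |sin (th 1) - sin (th 2)| ≤ √3 / 2 ∧ |sin (th 3) - sin (th 4)| ≤ √3 / 2 := by
  constructor
  · have h1 : sin (th 1) = oh (s 1) (φ + π / 3) := sin_th G X 1
    have h2 : sin (th 2) = oh (s 1) (φ + π) := sin_th G X 2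
    rw [h1, h2]
    refine oh_diff (G.sn 1) ?_
    rw [show φ + π / 3 - (φ + π) = -(2 * π / 3) by ring, cos_neg, c23]
  · have h1 : sin (th 3) = oh (s 2) (φ + π) := sin_th G X 3
    have h2 : sin (th 4) = oh (s 2) (φ + 5 * π / 3) := sin_th G X 4
    rw [h1, h2]
    refine oh_diff (G.sn 2) ?_
    rw [show φ + π - (φ + 5 * π / 3) = -(2 * π / 3) by ring, cos_neg, c23]

end Len76
end NH
end H11ST
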